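import Pool.Agent.H619Z.SlipC

set_option autoImplicit false

namespace Pool.Agent.Results.MP_222440_ag.FlagCondition

open Pool.Agent.H619Z.Slip

/-- The flag condition holds for the toric variety of every smooth complete fan: each ideal in
`Slip_r` is the first member of a chain `I = I_r ⊆ ... ⊆ I_0 = S` with `I_k` in `Slip_k`. -/
theorem result (F : Fan) (r : ℕ) (I : Ideal F.S) (hI : I ∈ F.Slip r) :
    ∃ c : ℕ → Ideal F.S, c r = I ∧ c 0 = ⊤ ∧ (∀ k < r, c (k + 1) ≤ c k) ∧
      ∀ k ≤ r, c k ∈ F.Slip k :=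
  main F r I hI

end Pool.Agent.Results.MP_222440_ag.FlagCondition
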